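import Pool.Agent.RS69.Fin1

/-!
# MP_ec87dd_an : a rigid primitive substitution shift whose leading eigenvalue is not Pisot

Own statement beside the frozen one: there is a substitution on four letters, primitive, with
infinite substitution shift, whose shift carries a rigid invariant probability measure, and whose
Perron-Frobenius eigenvalue has a Galois conjugate of modulus 1, different from it, which is not a
root of unity.
-/

set_option autoImplicit false

namespace Pool.Agent.Results.MP_ec87dd_an.RigidSalem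

open Filter Topology MeasureTheory

variable {d : ℕ}

/-- The image of a word under a substitution, extended to words by concatenation. -/
def apply (σ : Fin d → List (Fin d)) (w : List (Fin d)) : List (Fin d) := w.flatMap σ

/-- The incidence matrix: the entry `(a, b)` is the number of occurrences of `a` in `σ b`. -/
def incidence (σ : Fin d → List (Fin d)) : Matrix (Fin d) (Fin d) ℕ :=
  Matrix.of fun a b => (σ b).count a

/-- Some power of the incidence matrix has all entries positive. -/
def Primitive (σ : Fin d → List (Fin d)) : Prop :=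
  ∃ n : ℕ, 1 ≤ n ∧ ∀ a b, 0 < (incidence σ ^ n) a b

/-- The set of two-sided sequences all of whose finite subwords occur in some `σ^n(a)`. -/
def shiftSpace (σ : Fin d → List (Fin d)) : Set (ℤ → Fin d) :=
  {x | ∀ (i : ℤ) (k : ℕ), ∃ (n : ℕ) (a : Fin d),
    List.ofFn (fun j : Fin k => x (i + ((j : ℕ) : ℤ))) <:+: (apply σ)^[n] [a]}

/-- The left shift. -/
def S (x : ℤ → Fin d) : ℤ → Fin d := fun i => x (i + 1)

/-- An invariant probability measure of the substitution shift. -/
structure IsInvariantOn (σ : Fin d → List (Fin d)) (μ : Measure (ℤ → Fin d)) : Prop where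
  prob : IsProbabilityMeasure μ
  supp : μ (shiftSpace σ)ᶜ = 0
  inv : MeasurePreserving S μ μ

/-- Measure-theoretic rigidity. -/
def Rigid (μ : Measure (ℤ → Fin d)) : Prop :=
  ∃ n : ℕ → ℕ, Tendsto n atTop atTop ∧ ∀ B : Set (ℤ → Fin d), MeasurableSet B →
    Tendsto (fun k => μ (symmDiff (S^[n k] ⁻¹' B) B)) atTop (𝓝 0)

/-- `θ` is the Perron-Frobenius eigenvalue: it has a (right) eigenvector with positive entries. -/
def IsLeading (σ : Fin d → List (Fin d)) (θ : ℝ) : Prop :=
  ∃ v : Fin d → ℝ, (∀ a, 0 < v a) ∧ ((incidence σ).map (fun m : ℕ => (m : ℝ))).mulVec v = θ • v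

/-- A Pisot number: an algebraic integer `> 1` all of whose other conjugates have modulus `< 1`. -/
def IsPisot (θ : ℝ) : Prop :=
  1 < θ ∧ IsIntegral ℤ θ ∧ ∀ z ∈ (minpoly ℚ θ).aroots ℂ, z ≠ (θ : ℂ) → ‖z‖ < 1

section Aux

open Polynomial

theorem pow_mulVec {R : Type*} [CommRing R] (P : Matrix (Fin 4) (Fin 4) ℤ)
    (φ : (Fin 4 → ℤ) →+ R) (t : R) (h : ∀ v, φ (P.mulVec v) = t * φ v) :
    ∀ (n : ℕ) (v : Fin 4 → ℤ), φ ((P ^ n).mulVec v) = t ^ n * φ v := by
  intro n
  induction n with
  | zero => intro v; simp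
  | succ n ih =>
    intro v
    rw [pow_succ, ← Matrix.mulVec_mulVec, ih, h, pow_succ]
    ring

theorem aeval_mulVec {R : Type*} [CommRing R] (P : Matrix (Fin 4) (Fin 4) ℤ)
    (φ : (Fin 4 → ℤ) →+ R) (t : R) (h : ∀ v, φ (P.mulVec v) = t * φ v) (p : ℤ[X])
    (v : Fin 4 → ℤ) : φ ((aeval P p).mulVec v) = aeval t p * φ v := by
  induction p using Polynomial.induction_on' with
  | add p q hp hq => rw [map_add, map_add, Matrix.add_mulVec, map_add, hp, hq, add_mul]
  | monomial n a =>
    rw [aeval_monomial, aeval_monomial, Algebra.algebraMap_eq_smul_one,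
      Algebra.algebraMap_eq_smul_one, smul_mul_assoc, one_mul, smul_mul_assoc, one_mul,
      Matrix.smul_mulVec, map_zsmul, pow_mulVec P φ t h n v, smul_mul_assoc]

theorem two_pow_length {σ : Fin d → List (Fin d)} (h2 : ∀ a, 2 ≤ (σ a).length) (n : ℕ)
    (w : List (Fin d)) : 2 ^ n * w.length ≤ ((apply σ)^[n] w).length := by
  have h1 : ∀ w : List (Fin d), 2 * w.length ≤ (apply σ w).length := by
    intro w
    induction w with
    | nil => simp [apply]
    | cons a w ih =>
      unfold apply at ih ⊢
      rw [List.flatMap_cons, List.length_append, List.length_cons]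
      have := h2 a
      omega
  induction n with
  | zero => simp
  | succ n ih =>
    rw [Function.iterate_succ_apply']
    have h3 := h1 ((apply σ)^[n] w)
    rw [pow_succ]
    have h4 : 2 ^ n * 2 * w.length = 2 * (2 ^ n * w.length) := by ring
    omega

end Aux

open Pool.Agent.RS69 in
/-- There is a primitive substitution on four letters with infinite shift, a rigid invariant
probability measure of its shift, and leading eigenvalue `θ > 1` which is an algebraic integer with
a Galois conjugate `z ≠ θ` of modulus exactly `1` which is not a root of unity; in particular `θ`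
is not a Pisot number. -/
theorem result :
    ∃ σ : Fin 4 → List (Fin 4),
      Primitive σ ∧ (∀ a, Tendsto (fun n => ((apply σ)^[n] [a]).length) atTop atTop) ∧
      (shiftSpace σ).Infinite ∧
      (∃ μ : Measure (ℤ → Fin 4), IsInvariantOn σ μ ∧ Rigid μ) ∧
      ∃ θ : ℝ, IsLeading σ θ ∧ 1 < θ ∧ IsIntegral ℤ θ ∧ ¬ IsPisot θ ∧
        ∃ z ∈ (minpoly ℚ θ).aroots ℂ, z ≠ (θ : ℂ) ∧ ‖z‖ = 1 ∧ ∀ n : ℕ, 1 ≤ n → z ^ n ≠ 1 := by
  obtain ⟨B, -⟩ := exists_base
  obtain ⟨D⟩ := exists_design B
  obtain ⟨μ, h1, h2, h3, h4⟩ := SRig.exists_measure D.σ 0 (hlen D)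
    (fun k => (itw D k [0]).length) (hlen D) (mismatch D (recurrence D))
  have hpos : ∀ a b, 0 < (incidence D.σ) a b := by
    intro a b
    have h := D.Mpos a b
    rw [← count_eq B D a b] at h
    exact_mod_cast h
  have hθ1 : 1 < B.t0 ^ D.N := one_lt_pow₀ B.one_lt_t0 (by have := D.one_le_N; omega)
  have hint : IsIntegral ℤ (B.t0 ^ D.N) := by
    refine ⟨(B.P ^ D.N).charpoly, Matrix.charpoly_monic _, ?_⟩
    have h := aeval_mulVec (B.P ^ D.N) B.l (B.t0 ^ D.N) (pow_mulVec B.P B.l B.t0 B.l_P D.N)
      (B.P ^ D.N).charpoly (ev 0)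
    rw [Matrix.aeval_self_charpoly, Matrix.zero_mulVec, map_zero] at h
    have hl : B.l (ev 0) ≠ 0 := by
      have := B.l_ge 0
      intro h0
      rw [h0] at this
      linarith
    rcases mul_eq_zero.1 h.symm with h0 | h0
    · exact h0
    · exact absurd h0 hl
  have hne0 : minpoly ℚ (B.t0 ^ D.N) ≠ 0 := minpoly.ne_zero hint.tower_top
  refine ⟨D.σ, ⟨1, le_rfl, fun a b => by rw [pow_one]; exact hpos a b⟩, ?_, infinite D,
    ⟨μ, ⟨h1, h2, h3⟩, h4⟩, B.t0 ^ D.N, ⟨B.f, B.f_pos, ?_⟩, hθ1, hint, not_pisot B D.N D.one_le_N,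
    B.w0 ^ D.N, minpoly_root B D.N hne0, ?_, ?_, ?_⟩
  · intro a
    have hlen2 : ∀ a, 2 ≤ (D.σ a).length := by
      intro a
      have h0 : 0 < (D.σ a).count 0 := hpos 0 a
      have h1' : 0 < (D.σ a).count 1 := hpos 1 a
      have h0' := List.count_pos_iff.1 h0
      have h1'' := List.count_pos_iff.1 h1'
      rcases hw : D.σ a with _ | ⟨x, _ | ⟨y, w⟩⟩
      · rw [hw] at h0'
        simp at h0'
      · rw [hw] at h0' h1''
        simp only [List.mem_singleton] at h0' h1''
        rw [← h0'] at h1''
        exact absurd h1'' (by decide)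
      · simp
    refine tendsto_atTop_mono (fun n => ?_) tendsto_id
    have h := two_pow_length hlen2 n [a]
    rw [List.length_singleton, mul_one] at h
    exact (Nat.lt_two_pow_self).le.trans h
  · have := Pool.Agent.RS69.incidence B D
    exact this
  · intro h6
    have h7 := congrArg norm h6
    rw [norm_pow, B.norm_w0, one_pow, Complex.norm_real, Real.norm_eq_abs,
      abs_of_pos (by linarith)] at h7
    linarith
  · rw [norm_pow, B.norm_w0, one_pow]
  · intro n hn h
    rw [← pow_mul] at h
    exact B.w0_pow_ne (D.N * n) (Nat.mul_pos (by have := D.one_le_N; omega) (by omega)) h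

end Pool.Agent.Results.MP_ec87dd_an.RigidSalem
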